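import Mathlib

set_option autoImplicit false

namespace Pool.Agent.Results.MP_441cc7_al.Yes

open Polynomial Finset

/-- `P t m i = ∏_{j=1}^{m} (x - t_{i+j})` -/
noncomputable def P (t : ℕ → ℝ) (m i : ℕ) : ℝ[X] := ∏ j ∈ Icc 1 m, (X - C (t (i + j)))

lemma P_eq (t : ℕ → ℝ) (m i : ℕ) : P t m i = ∏ j ∈ range m, (X - C (t (i + j + 1))) := by
  rw [P, ← Finset.Ico_add_one_right_eq_Icc, prod_Ico_eq_prod_range]
  simp [add_comm 1, add_assoc]

lemma step (t : ℕ → ℝ) (m i : ℕ) :
    P t (m + 1) i - P t (m + 1) (i + 1) = (t (i + 1 + m + 1) - t (i + 1)) • P t m (i + 1) := by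
  rw [P_eq, P_eq, P_eq, prod_range_succ', prod_range_succ, smul_eq_C_mul, map_sub]
  simp only [add_zero, show ∀ j, i + (j + 1) + 1 = i + 1 + j + 1 from fun j => by ring]
  ring

lemma monic (t : ℕ → ℝ) (m i : ℕ) : (P t m i).Monic ∧ (P t m i).natDegree = m := by
  rw [P_eq]
  exact ⟨monic_prod_of_monic _ _ fun _ _ => monic_X_sub_C _, by
    rw [natDegree_prod_of_monic _ _ fun _ _ => monic_X_sub_C _]; simp⟩

lemma rolle (a : ℕ → ℝ) (i j : ℕ) (h : i < j) (e : a j ≤ a i) : ∃ l, i ≤ l ∧ l < j ∧ a (l + 1) ≤ a l := by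
  by_contra c
  push Not at c
  have : ∀ n, i + n + 1 ≤ j → a i < a (i + n + 1) := fun n => by
    induction n with
    | zero => exact fun h => c i le_rfl h
    | succ n ih => exact fun h => (ih (by omega)).trans (c _ (by omega) (by omega))
  obtain ⟨n, rfl⟩ := Nat.exists_eq_add_of_lt h
  exact (this n le_rfl).not_ge e

lemma main (t : ℕ → ℝ) (ht : ∀ a b, 1 ≤ a → a < b → t a < t b) (m : ℕ) :
    ∀ (L : ℝ[X] →ₗ[ℝ] ℝ) (j : ℕ → ℕ), (∀ l ≤ m, j l < j (l + 1)) →
      (∀ l ≤ m + 1, 0 ≤ (-1) ^ l * L (P t m (j l))) → ∀ p : ℝ[X], p.natDegree ≤ m → L p = 0 := by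
  induction m with
  | zero =>
    intro L j _ h p hp
    have h0 := h 0 (by simp)
    have h1 := h 1 le_rfl
    simp only [P_eq, range_zero, prod_empty] at h0 h1
    rw [eq_C_of_natDegree_le_zero hp, ← mul_one (C _), ← smul_eq_C_mul, map_smul,
      show L 1 = 0 by linarith, smul_zero]
  | succ m ih =>
    intro L j hj h p hp
    have : ∀ l, ∃ r, l ≤ m + 1 → j l ≤ r ∧ r < j (l + 1) ∧ 0 ≤ (-1) ^ l * L (P t m (r + 1)) :=
      fun l => by
        by_cases hl : l ≤ m + 1
        swap; · exact ⟨0, fun h => (hl h).elim⟩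
        obtain ⟨r, h1, h2, h3⟩ := rolle (fun i => (-1) ^ l * L (P t (m + 1) i)) _ _ (hj l hl) (by
          have := h l (by omega)
          have := h (l + 1) (by omega)
          rw [pow_succ] at this
          linarith)
        refine ⟨r, fun _ => ⟨h1, h2, ?_⟩⟩
        rw [← sub_nonneg, ← mul_sub, ← map_sub, step, map_smul, smul_eq_mul, mul_left_comm] at h3
        exact (mul_nonneg_iff_of_pos_left (sub_pos.2 (ht _ _ (by omega) (by omega)))).1 h3
    choose r hr using this
    have k := ih L (fun l => r l + 1) (fun l hl => by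
      have := hr l (by omega)
      have := hr (l + 1) (by omega)
      omega) fun l hl => (hr l hl).2.2
    have e : ∀ i, L p = p.coeff (m + 1) * L (P t (m + 1) i) := fun i => by
      rw [← smul_eq_mul, ← map_smul, ← sub_eq_zero, ← map_sub]
      refine k _ (natDegree_le_iff_coeff_eq_zero.2 fun n hn => ?_)
      rw [coeff_sub, coeff_smul, smul_eq_mul]
      rcases (Nat.succ_le_of_lt hn).eq_or_lt with rfl | hn
      · have := (monic t (m + 1) i).1.coeff_natDegree
        rw [(monic t (m + 1) i).2] at this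
        simp [this]
      · rw [coeff_eq_zero_of_natDegree_lt (hp.trans_lt hn),
          coeff_eq_zero_of_natDegree_lt ((monic t _ i).2.trans_lt hn)]; simp
    have h0 := h 0 (by simp)
    have h1 := h 1 (by simp)
    simp only [pow_zero, pow_one, one_mul, neg_mul, Left.nonneg_neg_iff] at h0 h1
    have e0 := e (j 0)
    have e1 := e (j 1)
    rcases le_total 0 (p.coeff (m + 1)) with c | c <;> nlinarith

theorem result (k : ℕ) (hk : 2 ≤ k) (t : ℕ → ℝ) (ht : ∀ a b, 1 ≤ a → a < b → t a < t b)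
    (i : Fin k → ℕ) (hi : StrictMono i) : LinearIndependent ℝ fun l => P t (k - 1) (i l) := by
  obtain ⟨m, rfl⟩ : ∃ m, k = m + 1 := ⟨k - 1, by omega⟩
  rw [linearIndependent_iff_card_le_finrank_span, Nat.add_sub_cancel]
  have : degreeLT ℝ (m + 1) ≤ Submodule.span ℝ (Set.range fun l => P t m (i l)) := fun p hp => by
    by_contra c
    obtain ⟨L, h1, h2⟩ := Submodule.exists_dual_map_eq_bot_of_notMem c inferInstance
    have h3 : ∀ l, L (P t m (i l)) = 0 := fun l =>
      (Submodule.eq_bot_iff _).1 h2 _ ⟨_, Submodule.subset_span ⟨l, rfl⟩, rfl⟩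
    let j : ℕ → ℕ := fun l => if h : l < m + 1 then i ⟨l, h⟩ else i (Fin.last m) + 1
    have hj : ∀ l ≤ m, j l < j (l + 1) := fun l hl => by
      simp only [j, dif_pos (Nat.lt_succ_of_le hl)]
      split_ifs with h
      · exact hi (by simp)
      · exact Nat.lt_succ_of_le (hi.monotone (Fin.le_last _))
    have hd : p.natDegree ≤ m := natDegree_le_iff_coeff_eq_zero.2 fun n hn =>
      (degree_lt_iff_coeff_zero _ _).1 (mem_degreeLT.1 hp) n hn
    have key : ∀ L' : ℝ[X] →ₗ[ℝ] ℝ, (∀ l, L' (P t m (i l)) = 0) →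
        0 ≤ (-1) ^ (m + 1) * L' (P t m (j (m + 1))) → L' p = 0 := fun L' a b =>
      main t ht m L' j hj (fun l hl => by
        rcases hl.eq_or_lt with rfl | hl
        · exact b
        · simp only [j, dif_pos hl, a, mul_zero, le_refl]) p hd
    rcases le_total 0 ((-1) ^ (m + 1) * L (P t m (j (m + 1)))) with c | c
    · exact h1 (key L h3 c)
    · exact h1 (by simpa using key (-L) (by simpa using h3) (by simpa using c))
  have := FiniteDimensional.span_of_finite ℝ (Set.finite_range fun l => P t m (i l))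
  refine le_trans ?_ (Submodule.finrank_mono ‹_›)
  rw [(degreeLTEquiv ℝ (m + 1)).finrank_eq]; simp

end Pool.Agent.Results.MP_441cc7_al.Yes
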